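import Mathlib
import Pool.Agent.Helper60_AK.StmtF

set_option autoImplicit false

/-!
Squad AK, module F3a: closure properties of the class of entire functions which decrease rapidly
in horizontal strips.
-/

namespace Pool.Agent.AK.H37

open Complex MeasureTheory Set Filter Pool.Agent.AK

lemma dec_bound {g : ℂ → ℂ} (hg : Dec g) (N : ℕ) (R : ℝ) :
    ∃ C : ℝ, 0 ≤ C ∧ ∀ z : ℂ, |z.im| ≤ R → ‖g z‖ ≤ C * Real.exp (-((N : ℝ) * |z.re|)) := by
  obtain ⟨C, hC⟩ := hg.2 N R
  refine ⟨max C 0, le_max_right _ _, fun z hz => (hC z hz).trans ?_⟩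
  exact mul_le_mul_of_nonneg_right (le_max_left _ _) (Real.exp_pos _).le

lemma dec_deriv {g : ℂ → ℂ} (hg : Dec g) : Dec (deriv g) := by
  refine ⟨?_, fun N R => ?_⟩
  · have := hg.1.contDiff (n := 2)
    have h2 : ContDiff ℂ 1 (deriv g) := by
      have h3 : ContDiff ℂ (1 + 1) g := by
        have : ((1 : WithTop ℕ∞) + 1) = 2 := by norm_num
        rw [this]
        exact hg.1.contDiff
      exact (contDiff_succ_iff_deriv.1 h3).2.2
    exact h2.differentiable (by norm_num)
  · obtain ⟨C, hC0, hC⟩ := dec_bound hg N (R + 1)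
    refine ⟨C * Real.exp N, fun z hz => ?_⟩
    have h1 : ∀ w ∈ Metric.sphere z 1, ‖g w‖ ≤ C * Real.exp N * Real.exp (-((N : ℝ) * |z.re|)) := by
      intro w hw
      have hw1 : ‖w - z‖ = 1 := by simpa [dist_eq_norm] using hw
      have him : |w.im| ≤ R + 1 := by
        have h2 : |(w - z).im| ≤ 1 := (abs_im_le_norm (w - z)).trans hw1.le
        have h3 : |w.im| ≤ |(w - z).im| + |z.im| := by
          have := abs_add_le (w - z).im z.im
          simpa using this
        linarith
      have hre : |z.re| - 1 ≤ |w.re| := by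
        have h2 : |(w - z).re| ≤ 1 := (abs_re_le_norm (w - z)).trans hw1.le
        have h3 : |z.re| ≤ |w.re| + |(w - z).re| := by
          have := abs_sub_abs_le_abs_sub z.re w.re
          rw [abs_sub_comm] at this
          simp only [sub_re] at *
          linarith
        linarith
      refine (hC w him).trans ?_
      rw [mul_assoc, ← Real.exp_add]
      refine mul_le_mul_of_nonneg_left (Real.exp_le_exp.2 ?_) hC0
      have hN : (0 : ℝ) ≤ N := Nat.cast_nonneg N
      nlinarith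
    have h2 := Complex.norm_deriv_le_of_forall_mem_sphere_norm_le (f := g) (c := z)
      (R := 1) (C := C * Real.exp N * Real.exp (-((N : ℝ) * |z.re|))) one_pos
      (hg.1.diffContOnCl) h1
    simpa using h2

lemma dec_exp {g : ℂ → ℂ} (a : ℝ) (hg : Dec g) : Dec (fun z => exp ((a : ℂ) * z) * g z) := by
  refine ⟨?_, fun N R => ?_⟩
  · have := hg.1
    fun_prop
  · obtain ⟨C, hC0, hC⟩ := dec_bound hg (N + ⌈|a|⌉₊) R
    refine ⟨C, fun z hz => ?_⟩
    have h1 : ‖exp ((a : ℂ) * z)‖ = Real.exp (a * z.re) := by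
      rw [Complex.norm_exp]
      congr 1
      simp
    rw [norm_mul, h1]
    have h2 : a * z.re ≤ (⌈|a|⌉₊ : ℝ) * |z.re| := by
      calc a * z.re ≤ |a * z.re| := le_abs_self _
        _ = |a| * |z.re| := abs_mul _ _
        _ ≤ (⌈|a|⌉₊ : ℝ) * |z.re| := mul_le_mul_of_nonneg_right (Nat.le_ceil _) (abs_nonneg _)
    calc Real.exp (a * z.re) * ‖g z‖
        ≤ Real.exp ((⌈|a|⌉₊ : ℝ) * |z.re|) *
            (C * Real.exp (-(((N + ⌈|a|⌉₊ : ℕ) : ℝ) * |z.re|))) := by
          apply mul_le_mul (Real.exp_le_exp.2 h2) (hC z hz) (norm_nonneg _) (Real.exp_pos _).le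
      _ = C * Real.exp (-((N : ℝ) * |z.re|)) := by
          rw [mul_left_comm, ← Real.exp_add]
          congr 2
          push_cast
          ring

lemma dec_expneg {g : ℂ → ℂ} (hg : Dec g) : Dec (fun z => exp (-z) * g z) := by
  have h := dec_exp (-1) hg
  simpa using h

lemma dec_exppos {g : ℂ → ℂ} (hg : Dec g) : Dec (fun z => exp z * g z) := by
  have h := dec_exp 1 hg
  simpa using h

lemma dec_add {g h : ℂ → ℂ} (hg : Dec g) (hh : Dec h) : Dec (fun z => g z + h z) := by
  refine ⟨hg.1.add hh.1, fun N R => ?_⟩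
  obtain ⟨C1, h1⟩ := hg.2 N R
  obtain ⟨C2, h2⟩ := hh.2 N R
  refine ⟨C1 + C2, fun z hz => ?_⟩
  rw [add_mul]
  exact (norm_add_le _ _).trans (add_le_add (h1 z hz) (h2 z hz))

lemma dec_mul {g : ℂ → ℂ} (c : ℂ) (hg : Dec g) : Dec (fun z => c * g z) := by
  refine ⟨hg.1.const_mul c, fun N R => ?_⟩
  obtain ⟨C1, h1⟩ := hg.2 N R
  refine ⟨‖c‖ * C1, fun z hz => ?_⟩
  rw [norm_mul, mul_assoc]
  exact mul_le_mul_of_nonneg_left (h1 z hz) (norm_nonneg _)

lemma integrable_expabs : Integrable (fun x : ℝ => Real.exp (-|x|)) := by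
  have h1 : IntegrableOn (fun x : ℝ => Real.exp (-|x|)) (Ioi 0) := by
    refine (integrableOn_exp_neg_Ioi 0).congr_fun ?_ measurableSet_Ioi
    intro x hx
    have : |x| = x := abs_of_pos hx
    simp [this]
  have h2 : IntegrableOn (fun x : ℝ => Real.exp (-|x|)) (Iic 0) := by
    refine (integrableOn_exp_Iic 0).congr_fun ?_ measurableSet_Iic
    intro x hx
    have : |x| = -x := abs_of_nonpos hx
    simp [this]
  have h3 := h2.union h1
  rwa [Iic_union_Ioi, integrableOn_univ] at h3

/-- integrability on horizontal lines. -/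
lemma dec_integrable {g : ℂ → ℂ} (hg : Dec g) (c : ℂ) :
    Integrable (fun x : ℝ => g ((x : ℂ) - c)) := by
  have h0 : Integrable (fun x : ℝ => g ((x : ℂ) - (c.im : ℂ) * I)) := by
    obtain ⟨C, hC0, hC⟩ := dec_bound hg 1 |c.im|
    refine (integrable_expabs.const_mul C).mono' ?_ ?_
    · have h1 : Continuous (fun x : ℝ => g ((x : ℂ) - (c.im : ℂ) * I)) := by
        have := hg.1.continuous
        fun_prop
      exact h1.aestronglyMeasurable
    · refine Filter.Eventually.of_forall fun x => ?_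
      have := hC ((x : ℂ) - (c.im : ℂ) * I) (by simp)
      simpa using this
  have h1 := h0.comp_sub_right c.re
  refine h1.congr (Filter.Eventually.of_forall fun x => ?_)
  simp only [ofReal_sub]
  congr 1
  have := re_add_im c
  linear_combination (-1 : ℂ) * this

lemma dec_integral_deriv {g : ℂ → ℂ} (hg : Dec g) (c : ℂ) :
    ∫ x : ℝ, deriv g ((x : ℂ) - c) = 0 := by
  refine integral_eq_zero_of_hasDerivAt_of_integrable (f := fun x : ℝ => g ((x : ℂ) - c))
    (fun x => ?_) (dec_integrable (dec_deriv hg) c) (dec_integrable hg c)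
  have h1 : HasDerivAt g (deriv g ((x : ℂ) - c)) ((x : ℂ) - c) := (hg.1 _).hasDerivAt
  have h2 : HasDerivAt (fun x : ℝ => (x : ℂ) - c) 1 x := by
    simpa using (ofRealCLM.hasDerivAt (x := x)).sub_const c
  have h3 := HasDerivAt.comp x h1 h2
  rw [mul_one] at h3
  exact h3

/-- the integral does not depend on the horizontal line. -/
lemma dec_integral {g : ℂ → ℂ} (hg : Dec g) (c : ℂ) :
    ∫ x : ℝ, g ((x : ℂ) - c) = ∫ x : ℝ, g (x : ℂ) := by
  have h0 : ∀ y : ℝ, HasDerivAt (fun y : ℝ => ∫ x : ℝ, g ((x : ℂ) - (y : ℂ) * I)) 0 y := by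
    intro y
    obtain ⟨C, hC0, hC⟩ := dec_bound (dec_deriv hg) 1 (|y| + 1)
    have h1 := hasDerivAt_integral_of_dominated_loc_of_deriv_le (μ := volume)
      (F := fun (y : ℝ) (x : ℝ) => g ((x : ℂ) - (y : ℂ) * I))
      (F' := fun (y : ℝ) (x : ℝ) => -I * deriv g ((x : ℂ) - (y : ℂ) * I))
      (x₀ := y) (s := Metric.ball y 1) (bound := fun x => C * Real.exp (-|x|))
      (Metric.ball_mem_nhds y one_pos) ?_ ?_ ?_ ?_ ?_ ?_
    · have h2 := h1.2
      rw [integral_const_mul, dec_integral_deriv hg, mul_zero] at h2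
      exact h2
    · refine Filter.Eventually.of_forall fun y' => ?_
      exact (dec_integrable hg _).aestronglyMeasurable
    · exact dec_integrable hg _
    · exact ((dec_integrable (dec_deriv hg) _).const_mul _).aestronglyMeasurable
    · refine Filter.Eventually.of_forall fun x y' hy' => ?_
      rw [norm_mul, norm_neg, norm_I, one_mul]
      have hy1 : |y'| ≤ |y| + 1 := by
        have h2 : |y' - y| < 1 := by simpa [Real.dist_eq] using hy'
        have h3 := abs_sub_abs_le_abs_sub y' y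
        linarith
      have h4 := hC ((x : ℂ) - (y' : ℂ) * I) (by simpa using hy1)
      simpa using h4
    · exact integrable_expabs.const_mul C
    · refine Filter.Eventually.of_forall fun x y' _ => ?_
      have h2 : HasDerivAt g (deriv g ((x : ℂ) - (y' : ℂ) * I)) ((x : ℂ) - (y' : ℂ) * I) :=
        (hg.1 _).hasDerivAt
      have h3 : HasDerivAt (fun y : ℝ => (x : ℂ) - (y : ℂ) * I) (-I) y' := by
        have h4 := ((ofRealCLM.hasDerivAt (x := y')).mul_const I).const_sub (x : ℂ)
        simpa using h4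
      have h5 := HasDerivAt.comp y' h2 h3
      rw [mul_comm] at h5
      exact h5
  have h1 : ∀ y : ℝ, ∫ x : ℝ, g ((x : ℂ) - (y : ℂ) * I) = ∫ x : ℝ, g (x : ℂ) := by
    intro y
    have hd : Differentiable ℝ (fun y : ℝ => ∫ x : ℝ, g ((x : ℂ) - (y : ℂ) * I)) :=
      fun y => (h0 y).differentiableAt
    have := is_const_of_deriv_eq_zero hd (fun y => (h0 y).deriv) y 0
    simpa using this
  have h2 : ∫ x : ℝ, g ((x : ℂ) - c) = ∫ x : ℝ, g ((x : ℂ) - (c.im : ℂ) * I) := by
    have h3 := integral_sub_right_eq_self (μ := (volume : Measure ℝ))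
      (fun x : ℝ => g ((x : ℂ) - (c.im : ℂ) * I)) c.re
    rw [← h3]
    congr 1
    funext x
    simp only [ofReal_sub]
    congr 1
    have := re_add_im c
    linear_combination (1 : ℂ) * this
  rw [h2, h1]

lemma dec_gauss : Dec (fun z => exp (-(z ^ 2 / 2))) := by
  refine ⟨by fun_prop, fun N R => ?_⟩
  refine ⟨Real.exp (R ^ 2 / 2 + (N : ℝ) ^ 2 / 2), fun z hz => ?_⟩
  have h1 : ‖exp (-(z ^ 2 / 2))‖ = Real.exp (-((z.re ^ 2 - z.im ^ 2) / 2)) := by
    rw [Complex.norm_exp]
    congr 1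
    have : z ^ 2 / 2 = ((z.re ^ 2 - z.im ^ 2) / 2 : ℝ) + (z.re * z.im : ℝ) * I := by
      apply Complex.ext
      · simp [pow_two]
      · simp [pow_two]
        ring
    rw [this, neg_re, add_re, ofReal_re, mul_re, ofReal_re, ofReal_im, I_re, I_im]
    ring
  simp only [h1, ← Real.exp_add]
  refine Real.exp_le_exp.2 ?_
  have h2 : z.im ^ 2 ≤ R ^ 2 := by
    rw [← sq_abs z.im]
    exact pow_le_pow_left₀ (abs_nonneg _) hz 2
  have h3 : z.re ^ 2 = |z.re| ^ 2 := (sq_abs _).symm
  nlinarith [sq_nonneg (|z.re| - N)]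

theorem f3a : F3aStmt :=
  ⟨fun _ h => dec_deriv h, fun _ a h => dec_exp a h, fun _ h => dec_expneg h,
    fun _ h => dec_exppos h, fun _ _ hg hh => dec_add hg hh, fun _ c hg => dec_mul c hg,
    fun _ hg c => ⟨dec_integrable hg c, dec_integral hg c⟩, dec_gauss⟩

end Pool.Agent.AK.H37
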