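import Mathlib
import Pool.Agent.Helper37_AK.F3a

set_option autoImplicit false

/-!
Squad AK, module F3b: existence of the kernels.
-/

namespace Pool.Agent.AK.H37

open Complex MeasureTheory Set Filter Pool.Agent.AK

/-- the sequence eta, counted from the top. -/
noncomputable def et (κ : ℂ) : ℕ → ℂ → ℂ
  | 0 => fun z => κ * exp (-(z ^ 2 / 2))
  | (m + 1) => fun z => (-1) * deriv (fun w => exp (-w) * et κ m w) z

/-- (k - D)^j u. -/
noncomputable def kd (k : ℂ) (u : ℂ → ℂ) : ℕ → ℂ → ℂ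
  | 0 => u
  | (j + 1) => fun z => k * kd k u j z + (-1) * deriv (kd k u j) z

noncomputable def hh (κ : ℂ) (J : ℕ) (k j : ℕ) : ℂ → ℂ :=
  kd (k : ℂ) (et κ (J + 1 - k)) (j - 1)

noncomputable def KK (κ : ℂ) (J : ℕ) : ℂ → ℂ := fun z => exp (-z) * et κ J z

lemma et_dec (κ : ℂ) (m : ℕ) : Dec (et κ m) := by
  induction m with
  | zero => exact dec_mul κ dec_gauss
  | succ m ih => exact dec_mul (-1) (dec_deriv (dec_expneg ih))

lemma kd_dec (k : ℂ) (u : ℂ → ℂ) (hu : Dec u) (j : ℕ) : Dec (kd k u j) := by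
  induction j with
  | zero => exact hu
  | succ j ih => exact dec_add (dec_mul k ih) (dec_mul (-1) (dec_deriv ih))

lemma hh_dec (κ : ℂ) (J k j : ℕ) : Dec (hh κ J k j) := kd_dec _ _ (et_dec _ _) _

lemma hh_dh (κ : ℂ) (J k j : ℕ) (hj : 1 ≤ j) (z : ℂ) :
    deriv (hh κ J k j) z = (k : ℂ) * hh κ J k j z - hh κ J k (j + 1) z := by
  obtain ⟨i, rfl⟩ : ∃ i, j = i + 1 := ⟨j - 1, by omega⟩
  have h1 : hh κ J k (i + 1 + 1) z =
      (k : ℂ) * hh κ J k (i + 1) z + (-1) * deriv (hh κ J k (i + 1)) z := rfl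
  rw [h1]
  ring

lemma der_expneg {u : ℂ → ℂ} (hu : Differentiable ℂ u) (z : ℂ) :
    deriv (fun w => exp (-w) * u w) z = -(exp (-z) * u z) + exp (-z) * deriv u z := by
  have h1 : HasDerivAt (fun w : ℂ => exp (-w)) (-exp (-z)) z := by
    simpa using ((hasDerivAt_id z).neg.cexp)
  have h2 := h1.mul (hu z).hasDerivAt
  have h3 : HasDerivAt (fun w => exp (-w) * u w) (-exp (-z) * u z + exp (-z) * deriv u z) z := h2
  rw [h3.deriv]
  ring

lemma hh_dm (κ : ℂ) (J k j : ℕ) (hk : k ≤ J) (hj : 1 ≤ j) (z : ℂ) :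
    deriv (fun w => exp (-w) * hh κ J (k + 1) j w) z = - hh κ J k j z := by
  obtain ⟨i, rfl⟩ : ∃ i, j = i + 1 := ⟨j - 1, by omega⟩
  induction i generalizing z with
  | zero =>
    have h1 : hh κ J k (0 + 1) = et κ ((J + 1 - (k + 1)) + 1) := by
      have : J + 1 - (k + 1) + 1 = J + 1 - k := by omega
      rw [this]
      rfl
    rw [h1]
    have h2 : hh κ J (k + 1) (0 + 1) = et κ (J + 1 - (k + 1)) := rfl
    rw [h2]
    have h3 : et κ (J + 1 - (k + 1) + 1) z =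
      (-1) * deriv (fun w => exp (-w) * et κ (J + 1 - (k + 1)) w) z := rfl
    rw [h3]
    ring
  | succ i ih =>
    have hD := (hh_dec κ J (k + 1) (i + 1)).1
    have ih' : ∀ z : ℂ, deriv (fun w => exp (-w) * hh κ J (k + 1) (i + 1) w) z
      = - hh κ J k (i + 1) z := fun z => ih z (by omega)
    have h1 : (fun w => exp (-w) * hh κ J (k + 1) (i + 1 + 1) w) =
        fun w => (k : ℂ) * (exp (-w) * hh κ J (k + 1) (i + 1) w) + hh κ J k (i + 1) w := by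
      funext w
      have h2 := ih' w
      rw [der_expneg hD, hh_dh κ J (k + 1) (i + 1) (by omega)] at h2
      push_cast at h2
      linear_combination (-1 : ℂ) * h2
    have h3 : Differentiable ℂ (fun w => exp (-w) * hh κ J (k + 1) (i + 1) w) :=
      (dec_expneg (hh_dec κ J (k + 1) (i + 1))).1
    have h4 := (hh_dec κ J k (i + 1)).1
    rw [h1]
    have h5 := ((h3 z).hasDerivAt.const_mul (k : ℂ)).add (h4 z).hasDerivAt
    have h6 : HasDerivAt (fun w => (k : ℂ) * (exp (-w) * hh κ J (k + 1) (i + 1) w)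
      + hh κ J k (i + 1) w) _ z := h5
    rw [h6.deriv, ih' z, hh_dh κ J k (i + 1) (by omega)]
    ring

lemma hh_up (κ : ℂ) (J k j : ℕ) (hk : k ≤ J) (hj : 1 ≤ j) (z : ℂ) :
    exp z * hh κ J k j z = hh κ J (k + 1) (j + 1) z - (k : ℂ) * hh κ J (k + 1) j z := by
  have h1 := hh_dm κ J k j hk hj z
  rw [der_expneg (hh_dec κ J (k + 1) j).1, hh_dh κ J (k + 1) j hj] at h1
  have h2 : exp z * exp (-z) = 1 := by
    rw [← Complex.exp_add]
    simp
  push_cast at h1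
  have h3 : hh κ J k j z = exp (-z) * (hh κ J (k + 1) (j + 1) z - (k : ℂ) * hh κ J (k + 1) j z) := by
    linear_combination (1 : ℂ) * h1
  rw [h3, ← mul_assoc, h2, one_mul]

/-- integration by parts. -/
lemma parts {u : ℂ → ℂ} (hu : Dec u) (a : ℝ) :
    ∫ x : ℝ, exp ((a : ℂ) * (x : ℂ)) * deriv u (x : ℂ) =
      -(a : ℂ) * ∫ x : ℝ, exp ((a : ℂ) * (x : ℂ)) * u (x : ℂ) := by
  have h0 := dec_integral_deriv (dec_exp a hu) 0
  have h1 : ∀ x : ℝ, deriv (fun z => exp ((a : ℂ) * z) * u z) ((x : ℂ) - 0) =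
      (a : ℂ) * (exp ((a : ℂ) * (x : ℂ)) * u (x : ℂ)) + exp ((a : ℂ) * (x : ℂ)) * deriv u (x : ℂ) := by
    intro x
    rw [sub_zero]
    have h2 : HasDerivAt (fun w : ℂ => exp ((a : ℂ) * w)) (exp ((a : ℂ) * (x : ℂ)) * (a : ℂ))
        (x : ℂ) := by
      simpa using ((hasDerivAt_id (x : ℂ)).const_mul (a : ℂ)).cexp
    have h3 : HasDerivAt (fun w : ℂ => exp ((a : ℂ) * w) * u w) _ (x : ℂ) :=
      h2.mul (hu.1 _).hasDerivAt
    rw [h3.deriv]
    ring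
  simp only [h1] at h0
  have i1 : Integrable (fun x : ℝ => exp ((a : ℂ) * (x : ℂ)) * u (x : ℂ)) := by
    simpa using dec_integrable (dec_exp a hu) 0
  have i2 : Integrable (fun x : ℝ => exp ((a : ℂ) * (x : ℂ)) * deriv u (x : ℂ)) := by
    simpa using dec_integrable (dec_exp a (dec_deriv hu)) 0
  rw [integral_add (i1.const_mul _) i2, integral_const_mul] at h0
  linear_combination h0

/-- one step of the moment computation. -/
lemma step {u v : ℂ → ℂ} (hu : Dec u)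
    (huv : ∀ z, deriv (fun w => exp (-w) * u w) z = - v z) (a : ℝ) :
    ∫ x : ℝ, exp ((a : ℂ) * (x : ℂ)) * v (x : ℂ) =
      (a : ℂ) * ∫ x : ℝ, exp (((a - 1 : ℝ) : ℂ) * (x : ℂ)) * u (x : ℂ) := by
  have h1 := parts (dec_expneg hu) a
  have h2 : ∀ x : ℝ, exp ((a : ℂ) * (x : ℂ)) * deriv (fun w => exp (-w) * u w) (x : ℂ)
      = -(exp ((a : ℂ) * (x : ℂ)) * v (x : ℂ)) := by
    intro x
    rw [huv]
    ring
  simp only [h2] at h1
  rw [integral_neg] at h1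
  have h3 : ∀ x : ℝ, exp ((a : ℂ) * (x : ℂ)) * (exp (-(x : ℂ)) * u (x : ℂ)) =
      exp (((a - 1 : ℝ) : ℂ) * (x : ℂ)) * u (x : ℂ) := by
    intro x
    rw [← mul_assoc, ← Complex.exp_add]
    congr 2
    push_cast
    ring
  simp only [h3] at h1
  linear_combination (-1 : ℂ) * h1

lemma hh_mom (κ : ℂ) (J : ℕ) : ∀ i k j : ℕ, i + k ≤ J → 1 ≤ j →
    ∫ x : ℝ, exp ((i : ℂ) * (x : ℂ)) * hh κ J k j (x : ℂ) = 0 := by
  intro i
  induction i with
  | zero =>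
    intro k j hk hj
    have h1 := step (hh_dec κ J (k + 1) j) (hh_dm κ J k j (by omega) hj) 0
    simpa using h1
  | succ i ih =>
    intro k j hk hj
    have h1 := step (hh_dec κ J (k + 1) j) (hh_dm κ J k j (by omega) hj) ((i + 1 : ℕ) : ℝ)
    have h2 : ((((i + 1 : ℕ) : ℝ) - 1 : ℝ) : ℂ) = (i : ℂ) := by
      push_cast
      ring
    rw [h2, ih (k + 1) j (by omega) hj, mul_zero] at h1
    simpa using h1

/-- the mass. -/
lemma mass_aux (κ : ℂ) (J : ℕ) : ∀ m : ℕ, m ≤ J →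
    ∫ x : ℝ, exp (((-1 : ℝ) : ℂ) * (x : ℂ)) * hh κ J 1 1 (x : ℂ) =
      (-1) ^ m * (m.factorial : ℂ) *
        ∫ x : ℝ, exp (((-((m + 1 : ℕ) : ℝ) : ℝ) : ℂ) * (x : ℂ)) * hh κ J (m + 1) 1 (x : ℂ) := by
  intro m
  induction m with
  | zero =>
    intro _
    simp
  | succ m ih =>
    intro hm
    rw [ih (by omega)]
    have h1 := step (hh_dec κ J (m + 1 + 1) 1) (hh_dm κ J (m + 1) 1 (by omega) le_rfl)
      (-((m + 1 : ℕ) : ℝ))
    rw [h1]
    have h2 : (-((m + 1 : ℕ) : ℝ) - 1) = -((m + 1 + 1 : ℕ) : ℝ) := by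
      push_cast
      ring
    rw [h2, Nat.factorial_succ]
    push_cast
    ring

lemma gauss_pos (a : ℝ) :
    ∫ x : ℝ, exp ((a : ℂ) * (x : ℂ)) * exp (-((x : ℂ) ^ 2 / 2)) ≠ 0 := by
  have h1 : ∀ x : ℝ, exp ((a : ℂ) * (x : ℂ)) * exp (-((x : ℂ) ^ 2 / 2)) =
      ((Real.exp (a * x + -(x ^ 2 / 2)) : ℝ) : ℂ) := by
    intro x
    rw [← Complex.exp_add]
    push_cast
    rfl
  have i1 : Integrable (fun x : ℝ => exp ((a : ℂ) * (x : ℂ)) * exp (-((x : ℂ) ^ 2 / 2))) := by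
    simpa using dec_integrable (dec_exp a dec_gauss) 0
  simp only [h1] at i1 ⊢
  have i2 : Integrable (fun x : ℝ => Real.exp (a * x + -(x ^ 2 / 2))) := by
    have h2 := i1.re
    refine h2.congr (Filter.Eventually.of_forall fun x => ?_)
    exact Complex.ofReal_re _
  have h3 := integral_exp_pos i2
  have h4 : ∫ x : ℝ, ((Real.exp (a * x + -(x ^ 2 / 2)) : ℝ) : ℂ) =
      ((∫ x : ℝ, Real.exp (a * x + -(x ^ 2 / 2)) : ℝ) : ℂ) := integral_ofReal
  rw [h4]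
  exact_mod_cast h3.ne'

theorem f3b : F3bStmt := by
  intro J
  obtain ⟨κ, hκ⟩ : ∃ κ : ℂ, (-1) ^ J * (J.factorial : ℂ) *
      (κ * ∫ x : ℝ, exp (((-((J + 1 : ℕ) : ℝ) : ℝ) : ℂ) * (x : ℂ)) * exp (-((x : ℂ) ^ 2 / 2)))
        = 1 := by
    have h1 := gauss_pos (-((J + 1 : ℕ) : ℝ))
    have h2 : (J.factorial : ℂ) ≠ 0 := by exact_mod_cast J.factorial_ne_zero
    have h3 : ((-1 : ℂ)) ^ J ≠ 0 := pow_ne_zero _ (by norm_num)
    refine ⟨((-1) ^ J * (J.factorial : ℂ) * ∫ x : ℝ,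
      exp (((-((J + 1 : ℕ) : ℝ) : ℝ) : ℂ) * (x : ℂ)) * exp (-((x : ℂ) ^ 2 / 2)))⁻¹, ?_⟩
    generalize (∫ x : ℝ,
      exp (((-((J + 1 : ℕ) : ℝ) : ℝ) : ℂ) * (x : ℂ)) * exp (-((x : ℂ) ^ 2 / 2))) = M at h1 ⊢
    field_simp
  have hK1 : ∀ z, KK κ J z = exp (-z) * hh κ J 1 1 z := fun z => rfl
  have heK : ∀ z, exp z * KK κ J z = hh κ J 1 1 z := by
    intro z
    rw [hK1, ← mul_assoc, ← Complex.exp_add]
    simp
  refine ⟨KK κ J, hh κ J, ?_⟩
  refine
    { decK := dec_expneg (et_dec κ J)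
      dec := fun k j => hh_dec κ J k j
      dh := fun k j _ hj z => hh_dh κ J k j hj z
      dm := ?_
      up := fun k j hk hj z => hh_up κ J k j hk hj z
      dK := fun z => hh_dm κ J 0 1 (Nat.zero_le _) le_rfl z
      eK := heK
      mass := ?_
      momK := ?_
      mom := fun i k j h1 h2 => hh_mom κ J i k j h1 h2 }
  · intro k j hk hk2 hj z
    obtain ⟨l, rfl⟩ : ∃ l, k = l + 1 := ⟨k - 1, by omega⟩
    exact hh_dm κ J l j (by omega) hj z
  · have h1 := mass_aux κ J J le_rfl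
    have h2 : hh κ J (J + 1) 1 = fun z => κ * exp (-(z ^ 2 / 2)) := by
      have : J + 1 - (J + 1) = 0 := by omega
      unfold hh
      rw [this]
      rfl
    have h3 : ∀ x : ℝ, exp (((-1 : ℝ) : ℂ) * (x : ℂ)) * hh κ J 1 1 (x : ℂ) = KK κ J (x : ℂ) := by
      intro x
      rw [hK1]
      congr 2
      push_cast
      ring
    simp only [h3] at h1
    have h4 : ∫ x : ℝ, exp (((-((J + 1 : ℕ) : ℝ) : ℝ) : ℂ) * (x : ℂ)) *
        hh κ J (J + 1) 1 (x : ℂ) = κ * ∫ x : ℝ,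
          exp (((-((J + 1 : ℕ) : ℝ) : ℝ) : ℂ) * (x : ℂ)) * exp (-((x : ℂ) ^ 2 / 2)) := by
      rw [← integral_const_mul]
      congr 1
      funext x
      simp only [h2]
      ring
    rw [h1, h4, hκ]
  · intro i hi1 hi2
    obtain ⟨l, rfl⟩ : ∃ l, i = l + 1 := ⟨i - 1, by omega⟩
    have h1 := hh_mom κ J l 1 1 (by omega) le_rfl
    rw [← h1]
    congr 1
    funext x
    rw [← heK, ← mul_assoc, ← Complex.exp_add]
    congr 2
    push_cast
    ring

end Pool.Agent.AK.H37
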